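import Pool.Agent.Y17.N.Defs3
import Pool.Agent.Y232.ZI.Ind
import Pool.Agent.Z179.TREE

/-!
# Z17N, job IND3S: parity of the unweighted sums for `q = 3`, all split primes
-/

set_option autoImplicit false

namespace Pool.Agent.Y287.ZN

open Finset Matrix
open Pool.Agent.Z700 (V3 vec Ln n0 ep pr X2 Yd lres xres sq7 KerT S_TREE)
open Pool.Agent.Y17.N
open Pool.Agent.Y232.ZI (lres_symm lres_val xres_sum Yd_empty)

/-! ### symbols (adapted from `Pool.Agent.Y232.ZI.Ind3`) -/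

theorem sym_comm {p q : ℕ} (hp : Sp p) (hq : Sp q) : jacobiSym q p = jacobiSym p q := by
  have h1 : q % 4 = 1 := by have := hq.2.1; omega
  have h2 : Odd p := by
    rw [Nat.odd_iff]
    have := hp.2.1
    omega
  exact jacobiSym.quadratic_reciprocity_one_mod_four h1 h2

theorem sym_val {p q : ℕ} (hp : Sp p) (hq : Sp q) (h : p ≠ q) :
    jacobiSym q p = 1 ∨ jacobiSym q p = -1 := by
  apply jacobiSym.eq_one_or_neg_one
  rw [Int.gcd_natCast_natCast]
  exact (Nat.coprime_primes hq.1 hp.1).2 (Ne.symm h)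

theorem sym_eq {p q : ℕ} (hp : Sp p) (hq : Sp q) (h : p ≠ q) :
    jacobiSym q p = if lres p q = 1 then -1 else 1 := by
  have h1 := sym_comm hp hq
  rcases sym_val hp hq h with h2 | h2
  · have : lres p q = 0 := by
      unfold lres
      rw [if_neg]
      rw [← h1, h2]
      decide
    rw [this, h2]
    simp
  · have : lres p q = 1 := by
      unfold lres
      rw [if_pos]
      exact Or.inr h2
    rw [this, h2]
    simp

theorem sym_prod {p : ℕ} (hp : Sp p) (J : Finset ℕ) (hJ : ∀ q ∈ J, Sp q) (hpJ : p ∉ J) :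
    jacobiSym (pr J) p = if Even (∑ q ∈ J, lres p q) then 1 else -1 := by
  induction J using Finset.induction_on with
  | empty => simp [pr]
  | insert q J hq ih =>
    have h1 : Sp q := hJ q (mem_insert_self q J)
    have h2 : p ≠ q := fun h => hpJ (h ▸ mem_insert_self q J)
    have ih' := ih (fun r hr => hJ r (mem_insert_of_mem hr)) (fun h => hpJ (mem_insert_of_mem h))
    have e : (pr (insert q J) : ℤ) = (q : ℤ) * (pr J : ℤ) := by
      unfold pr
      rw [prod_insert hq]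
      push_cast
      rfl
    rw [e, jacobiSym.mul_left, ih', sym_eq hp h1 h2, sum_insert hq]
    have h5 : Even (lres p q + ∑ x ∈ J, lres p x) ↔ (Even (lres p q) ↔ Even (∑ x ∈ J, lres p x)) :=
      Int.even_add
    rcases lres_val p q with h3 | h3
    · rw [h3] at h5 ⊢
      rw [if_neg (by decide : ¬ ((0 : ℤ) = 1))]
      by_cases h4 : Even (∑ q ∈ J, lres p q)
      · rw [if_pos h4, if_pos (h5.2 (by simp [h4]))]
        norm_num
      · have h7 : ¬ Even (0 + ∑ x ∈ J, lres p x) := fun h => h4 ((h5.1 h).1 (by decide))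
        rw [if_neg h4, if_neg h7]
        norm_num
    · rw [h3] at h5 ⊢
      rw [if_pos rfl]
      have h6 : ¬ Even (1 : ℤ) := by decide
      by_cases h4 : Even (∑ q ∈ J, lres p q)
      · have h7 : ¬ Even (1 + ∑ x ∈ J, lres p x) := fun h => h6 ((h5.1 h).2 h4)
        rw [if_pos h4, if_neg h7]
        norm_num
      · rw [if_neg h4, if_pos (h5.2 (by simp [h4]))]
        norm_num

theorem sym_one_iff {p : ℕ} (hp : Sp p) (J : Finset ℕ) (hJ : ∀ q ∈ J, Sp q) (hpJ : p ∉ J) :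
    jacobiSym (pr J) p = 1 ↔ Even (∑ q ∈ J, lres p q) := by
  rw [sym_prod hp J hJ hpJ]
  by_cases h : Even (∑ q ∈ J, lres p q)
  · simp [h]
  · simp [h]

theorem ker_iff {P : Finset ℕ} (hP : ∀ p ∈ P, Sp p) : KerT P ↔
    ∀ J ⊆ P, (∀ p ∈ P \ J, Even (∑ q ∈ J, lres p q)) →
      (∀ p ∈ J, Even (∑ q ∈ P \ J, lres p q)) → J = ∅ ∨ J = P := by
  unfold KerT
  have key : ∀ J ⊆ P, ((∀ p ∈ P \ J, jacobiSym (pr J) p = 1) ↔
      (∀ p ∈ P \ J, Even (∑ q ∈ J, lres p q))) ∧
      ((∀ p ∈ J, jacobiSym (pr (P \ J)) p = 1) ↔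
      (∀ p ∈ J, Even (∑ q ∈ P \ J, lres p q))) := by
    intro J hJ
    constructor
    · apply forall₂_congr
      intro p hp
      rw [mem_sdiff] at hp
      exact sym_one_iff (hP p hp.1) J (fun q hq => hP q (hJ hq)) hp.2
    · apply forall₂_congr
      intro p hp
      refine sym_one_iff (hP p (hJ hp)) (P \ J) (fun q hq => hP q (mem_sdiff.1 hq).1) ?_
      intro h
      exact (mem_sdiff.1 h).2 hp
  apply forall₂_congr
  intro J hJ
  rw [(key J hJ).1, (key J hJ).2]

theorem odd_congr {ι : Type*} (F : Finset ι) (f g : ι → ℤ) (h : ∀ i ∈ F, (2 : ℤ) ∣ f i - g i) :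
    Odd (∑ i ∈ F, f i) ↔ Odd (∑ i ∈ F, g i) := by
  have h1 : (2 : ℤ) ∣ ∑ i ∈ F, f i - ∑ i ∈ F, g i := by
    rw [← sum_sub_distrib]
    exact dvd_sum h
  rw [Int.odd_iff, Int.odd_iff]
  omega

theorem dvd_of_odd {a b : ℤ} (h : Odd a ↔ Odd b) : (2 : ℤ) ∣ a - b := by
  rw [Int.odd_iff, Int.odd_iff] at h
  omega

theorem qr3 : Qr 3 := ⟨by norm_num, by norm_num, by norm_num⟩

theorem cq3 : cq 3 = 2 := by
  unfold cq
  rw [if_pos (by norm_num)]

theorem sq7_sq {p : ℕ} (h : p % 7 = 1 ∨ p % 7 = 2 ∨ p % 7 = 4) : (sq7 p) ^ 2 = (p : ZMod 7) := by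
  have hp : (p : ZMod 7) = ((p % 7 : ℕ) : ZMod 7) := (ZMod.natCast_mod p 7).symm
  rw [hp]
  unfold sq7
  rcases h with h | h | h
  · rw [h]; decide
  · rw [h]; decide
  · rw [h]; decide

theorem sq7_ne (p : ℕ) : sq7 p ≠ 0 := by
  unfold sq7
  split_ifs <;> decide

theorem bq_ne (D : Finset ℕ) : bq 3 D ≠ 0 := by
  have : Fact (Nat.Prime 7) := ⟨by norm_num⟩
  unfold bq
  rw [cq3]
  refine mul_ne_zero (by decide) ?_
  rw [Finset.prod_ne_zero_iff]
  exact fun p _ => sq7_ne p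

theorem bq_sq {D : Finset ℕ} (hD : ∀ p ∈ D, Sp p) :
    (bq 3 D) ^ 2 = -((3 * pr D : ℕ) : ZMod 7) := by
  unfold bq pr
  rw [cq3, mul_pow, ← Finset.prod_pow,
    Finset.prod_congr rfl (fun p hp => sq7_sq (hD p hp).2.2)]
  push_cast
  have : (2 : ZMod 7) ^ 2 = -3 := by decide
  rw [this]
  ring

theorem bq_mul {P D : Finset ℕ} (h : D ⊆ P) : bq 3 D * bq 3 (P \ D) = 2 * bq 3 P := by
  unfold bq
  rw [cq3, ← Finset.prod_sdiff h]
  ring

theorem pr_mod8 {D : Finset ℕ} (hD : ∀ p ∈ D, Sp p) : pr D % 8 = 1 := by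
  induction D using Finset.induction_on with
  | empty => simp [pr]
  | insert q J hq ih =>
    have h1 := (hD q (mem_insert_self q J)).2.1
    have h2 := ih (fun r hr => hD r (mem_insert_of_mem hr))
    have e : pr (insert q J) = q * pr J := by
      unfold pr
      rw [prod_insert hq]
    rw [e, Nat.mul_mod, h1, h2]

theorem pr_sqf {D : Finset ℕ} (hD : ∀ p ∈ D, Sp p) : Squarefree (pr D) := by
  induction D using Finset.induction_on with
  | empty => simp [pr]
  | insert q J hq ih =>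
    have h1 := (hD q (mem_insert_self q J)).1
    have h2 := ih (fun r hr => hD r (mem_insert_of_mem hr))
    have e : pr (insert q J) = q * pr J := by
      unfold pr
      rw [prod_insert hq]
    rw [e, Nat.squarefree_mul_iff]
    refine ⟨?_, h1.squarefree, h2⟩
    unfold pr
    apply Nat.Coprime.prod_right
    intro r hr
    rw [Nat.coprime_primes h1 (hD r (mem_insert_of_mem hr)).1]
    rintro rfl
    exact hq hr

theorem n_sqf {D : Finset ℕ} (hD : ∀ p ∈ D, Sp p) : Squarefree (3 * pr D) := by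
  rw [Nat.squarefree_mul_iff]
  refine ⟨?_, Nat.prime_three.squarefree, pr_sqf hD⟩
  unfold pr
  apply Nat.Coprime.prod_right
  intro r hr
  rw [Nat.coprime_primes Nat.prime_three (hD r hr).1]
  rintro rfl
  have := (hD 3 hr).2.1
  omega

theorem pr_mul {P D : Finset ℕ} (h : D ⊆ P) : pr D * pr (P \ D) = pr P := by
  unfold pr
  rw [mul_comm]
  exact Finset.prod_sdiff h

theorem nosq {P : Finset ℕ} (hP : ∀ p ∈ P, Sp p) (hne : P.Nonempty) (b : ℤ) :
    b ^ 2 ≠ 9 * (pr P : ℤ) := by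
  intro h
  have h3 : (3 : ℤ) ∣ b := by
    have : (3 : ℤ) ∣ b ^ 2 := by rw [h]; exact ⟨3 * (pr P : ℤ), by ring⟩
    exact Int.prime_three.dvd_of_dvd_pow this
  obtain ⟨c, rfl⟩ := h3
  have h4 : c * c = (pr P : ℤ) := by nlinarith
  have h5 : c.natAbs * c.natAbs = pr P := by
    have := congrArg Int.natAbs h4
    rwa [Int.natAbs_mul, Int.natAbs_natCast] at this
  have h6 := pr_sqf hP c.natAbs (by rw [h5])
  rw [Nat.isUnit_iff] at h6
  rw [h6] at h5
  obtain ⟨p, hp⟩ := hne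
  have h7 : p ∣ pr P := Finset.dvd_prod_of_mem _ hp
  rw [← h5] at h7
  exact (hP p hp).1.one_lt.ne' (Nat.dvd_one.1 (by simpa using h7))

theorem g_empty : g0 ((3 * pr ∅ : ℕ) : ℤ) (bq 3 ∅) = 1 := by
  have e1 : ((3 * pr ∅ : ℕ) : ℤ) = 3 := by simp [pr]
  have e2 : bq 3 ∅ = 2 := by unfold bq; rw [cq3]; simp
  rw [e1, e2]
  decide +kernel

theorem par1 {A B Y N : ℤ} {K : Prop} {sx se : ℤ} {ZP : ℤ} (hA : Odd A ↔ (Odd se ∧ K))
    (hN : Odd N ↔ (Odd sx ∧ K)) (hZ : Odd (ZP + B) ↔ (Odd (sx + se) ∧ K)) (hY : Odd Y ↔ Odd B) :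
    Odd (A - Y - 3 * N) ↔ Odd ZP := by
  by_cases hK : K
  · simp only [hK, and_true] at hA hN hZ
    rw [Int.odd_iff, Int.odd_iff] at *
    omega
  · simp only [hK, and_false, iff_false] at hA hN hZ
    rw [Int.odd_iff] at hA hN hZ
    rw [Int.odd_iff, Int.odd_iff] at *
    omega

theorem t_IND3S (hb : S_BIL) (h8 : S_T8) (hr : S_RHQ) (hg : S_GEN3) (hf : S_FIXT) : S_IND3S := by
  classical
  intro P
  induction P using Finset.strongInduction with
  | H P ih =>
    intro hP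
    rcases P.eq_empty_or_nonempty with rfl | hne
    · refine ⟨1, ?_, ?_⟩
      · rw [g_empty]
        simp
      · rw [Yd_empty]
    obtain ⟨N, hN1, hN2⟩ := hg P hP hne
    have hk : KerT P ↔ _ := ker_iff hP
    rw [hf P hP hne, hk] at hN2
    obtain ⟨p0, hp0⟩ := hne
    obtain ⟨xx, hxx⟩ : ∃ xx : ℕ → ℤ, xx = fun p => xres p + eQ 3 p := ⟨_, rfl⟩
    rw [← hxx]
    have htx := Pool.Agent.Z179.t_TREE lres xx lres_symm P p0 hp0
    have hte := Pool.Agent.Z179.t_TREE lres (eQ 3) lres_symm P p0 hp0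
    have hsx : ∑ p ∈ P, xx p = ∑ p ∈ P, xres p + ∑ p ∈ P, eQ 3 p := by
      rw [hxx, ← sum_add_distrib]
    rw [hsx] at htx
    rw [← Int.odd_coe_nat, ← xres_sum] at hN2
    obtain ⟨T, hT⟩ : ∃ T : Finset ℕ → ℤ, T = fun D => t0 ((3 * pr D : ℕ) : ℤ) (bq 3 D) := ⟨_, rfl⟩
    obtain ⟨G, hG⟩ : ∃ G : Finset ℕ → ℤ, G = fun D => g0 ((3 * pr D : ℕ) : ℤ) (bq 3 D) := ⟨_, rfl⟩
    have hGP : g0 ((3 * pr P : ℕ) : ℤ) (bq 3 P) = G P := by rw [hG]
    rw [hGP]
    have hG0 : G ∅ = 1 := by rw [hG]; exact g_empty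
    -- the class numbers
    have hh : ∀ D ⊆ P, ∃ h : ℤ, T D = 2 ^ D.card * h ∧ (Odd h ↔ Odd (Yd lres (eQ 3) D)) := by
      intro D hD
      have hD' : ∀ p ∈ D, Sp p := fun p hp => hP p (hD hp)
      obtain ⟨h, h1, h2⟩ := hr 3 D qr3 hD'
      refine ⟨h, ?_, h2⟩
      have h3 := h8 ((3 * pr D : ℕ) : ℤ) (by have := pr_mod8 hD'; omega) (bq 3 D) (bq_ne D)
        (by rw [bq_sq hD', Int.cast_natCast])
      rw [h3] at h1
      rw [hT]
      show t0 ((3 * pr D : ℕ) : ℤ) (bq 3 D) = _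
      linarith
    choose! h hh1 hh2 using hh
    have hy : ∀ D ⊆ P, D ≠ P → ∃ y : ℤ, G D = 2 ^ D.card * y ∧ (Odd y ↔ Odd (Yd lres xx D)) := by
      intro D hD hDP
      obtain ⟨y, h1, h2⟩ := ih D (Finset.ssubset_iff_subset_ne.2 ⟨hD, hDP⟩)
        (fun p hp => hP p (hD hp))
      refine ⟨y, ?_, ?_⟩
      · rw [hG]; exact h1
      · rw [hxx]; exact h2
    choose! y hy1 hy2 using hy
    have hsum : ∑ D ∈ P.powerset, (T D * T (P \ D) - G D * G (P \ D)) = 6 * (2 ^ P.card * N) := by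
      rw [← hN1, mul_sum]
      apply sum_congr rfl
      intro D hD
      have hD' := mem_powerset.1 hD
      have s1 : ∀ p ∈ D, Sp p := fun p hp => hP p (hD' hp)
      have s2 : ∀ p ∈ P \ D, Sp p := fun p hp => hP p (mem_sdiff.1 hp).1
      have h1 := hb (3 * pr D) (3 * pr (P \ D)) (n_sqf s1)
        (by have := pr_mod8 s1; omega) (by have := pr_mod8 s2; omega) (bq 3 D) (bq 3 (P \ D))
        (bq_ne _) (bq_ne _) (bq_sq s1) (bq_sq s2) 1 (Or.inl rfl) (by
          intro b _ _ h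
          refine nosq hP ⟨p0, hp0⟩ b ?_
          rw [h, ← pr_mul hD']
          push_cast
          ring)
      rw [bq_mul hD', one_mul] at h1
      rw [hT, hG]
      exact h1
    have hsplit : ∑ D ∈ P.powerset, (T D * T (P \ D) - G D * G (P \ D)) =
        2 * ∑ D ∈ P.powerset.filter (fun D => p0 ∈ D), (T D * T (P \ D) - G D * G (P \ D)) := by
      rw [← sum_filter_add_sum_filter_not P.powerset (fun D => p0 ∈ D)]
      have : ∑ D ∈ P.powerset.filter (fun D => ¬ p0 ∈ D), (T D * T (P \ D) - G D * G (P \ D)) =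
          ∑ D ∈ P.powerset.filter (fun D => p0 ∈ D), (T D * T (P \ D) - G D * G (P \ D)) := by
        refine Finset.sum_bij' (fun D _ => P \ D) (fun D _ => P \ D) ?_ ?_ ?_ ?_ ?_
        · intro D hD
          rw [mem_filter, mem_powerset] at hD ⊢
          exact ⟨sdiff_subset, mem_sdiff.2 ⟨hp0, hD.2⟩⟩
        · intro D hD
          rw [mem_filter, mem_powerset] at hD ⊢
          exact ⟨sdiff_subset, fun h => (mem_sdiff.1 h).2 hD.2⟩
        · intro D hD
          rw [mem_filter, mem_powerset] at hD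
          exact Finset.sdiff_sdiff_eq_self hD.1
        · intro D hD
          rw [mem_filter, mem_powerset] at hD
          exact Finset.sdiff_sdiff_eq_self hD.1
        · intro D hD
          rw [mem_filter, mem_powerset] at hD
          rw [Finset.sdiff_sdiff_eq_self hD.1]
          ring
      rw [this]
      ring
    have hcard : ∀ D ⊆ P, (2 : ℤ) ^ P.card = 2 ^ D.card * 2 ^ (P \ D).card := by
      intro D hD
      rw [← pow_add]
      congr 1
      rw [card_sdiff_of_subset hD]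
      have := card_le_card hD
      omega
    have hPmem : P ∈ P.powerset.filter (fun D => p0 ∈ D) := by
      rw [mem_filter, mem_powerset]
      exact ⟨Subset.refl P, hp0⟩
    obtain ⟨F, hF⟩ : ∃ F, F = (P.powerset.filter (fun D => p0 ∈ D)).erase P := ⟨_, rfl⟩
    have hFm : ∀ D ∈ F, D ⊆ P ∧ D ≠ P ∧ P \ D ≠ P := by
      intro D hD
      rw [hF, mem_erase, mem_filter, mem_powerset] at hD
      obtain ⟨a1, a2, a3⟩ := hD
      refine ⟨a2, a1, ?_⟩
      intro h
      rw [← h] at hp0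
      exact (mem_sdiff.1 hp0).2 a3
    have hsT : ∑ D ∈ P.powerset.filter (fun D => p0 ∈ D), T D * T (P \ D) =
        2 ^ P.card * ∑ D ∈ P.powerset.filter (fun D => p0 ∈ D), h D * h (P \ D) := by
      rw [mul_sum]
      apply sum_congr rfl
      intro D hD
      rw [mem_filter, mem_powerset] at hD
      rw [hh1 D hD.1, hh1 (P \ D) sdiff_subset, hcard D hD.1]
      ring
    have hsG : ∑ D ∈ P.powerset.filter (fun D => p0 ∈ D), G D * G (P \ D) =
        G P + 2 ^ P.card * ∑ D ∈ F, y D * y (P \ D) := by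
      rw [← Finset.add_sum_erase _ _ hPmem, sdiff_self, ← hF, mul_sum]
      have e0 : G P * G (⊥ : Finset ℕ) = G P := by
        have : G (⊥ : Finset ℕ) = 1 := hG0
        rw [this, mul_one]
      rw [e0]
      congr 1
      apply sum_congr rfl
      intro D hD
      obtain ⟨a1, a2, a3⟩ := hFm D hD
      rw [hy1 D a1 a2, hy1 (P \ D) sdiff_subset a3, hcard D a1]
      ring
    have hsY : ∑ S ∈ P.powerset.filter (fun S => p0 ∈ S), Yd lres xx S * Yd lres xx (P \ S) =
        Yd lres xx P + ∑ D ∈ F, Yd lres xx D * Yd lres xx (P \ D) := by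
      rw [← Finset.add_sum_erase _ _ hPmem, sdiff_self, ← hF]
      have e0 : Yd lres xx P * Yd lres xx (⊥ : Finset ℕ) = Yd lres xx P := by
        have : Yd lres xx (⊥ : Finset ℕ) = 1 := Yd_empty lres xx
        rw [this, mul_one]
      rw [e0]
    have hcT : Odd (∑ D ∈ P.powerset.filter (fun D => p0 ∈ D), h D * h (P \ D)) ↔
        Odd (∑ D ∈ P.powerset.filter (fun D => p0 ∈ D),
          Yd lres (eQ 3) D * Yd lres (eQ 3) (P \ D)) := by
      apply odd_congr
      intro D hD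
      rw [mem_filter, mem_powerset] at hD
      have q1 := dvd_of_odd (hh2 D hD.1)
      have q2 := dvd_of_odd (hh2 (P \ D) sdiff_subset)
      have e : h D * h (P \ D) - Yd lres (eQ 3) D * Yd lres (eQ 3) (P \ D) =
          (h D - Yd lres (eQ 3) D) * h (P \ D) +
            Yd lres (eQ 3) D * (h (P \ D) - Yd lres (eQ 3) (P \ D)) := by ring
      rw [e]
      exact dvd_add (Dvd.dvd.mul_right q1 _) (Dvd.dvd.mul_left q2 _)
    have hcY : Odd (∑ D ∈ F, y D * y (P \ D)) ↔
        Odd (∑ D ∈ F, Yd lres xx D * Yd lres xx (P \ D)) := by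
      apply odd_congr
      intro D hD
      obtain ⟨a1, a2, a3⟩ := hFm D hD
      have q1 := dvd_of_odd (hy2 D a1 a2)
      have q2 := dvd_of_odd (hy2 (P \ D) sdiff_subset a3)
      have e : y D * y (P \ D) - Yd lres xx D * Yd lres xx (P \ D) =
          (y D - Yd lres xx D) * y (P \ D) +
            Yd lres xx D * (y (P \ D) - Yd lres xx (P \ D)) := by ring
      rw [e]
      exact dvd_add (Dvd.dvd.mul_right q1 _) (Dvd.dvd.mul_left q2 _)
    rw [hsY] at htx
    refine ⟨∑ D ∈ P.powerset.filter (fun D => p0 ∈ D), h D * h (P \ D) -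
      ∑ D ∈ F, y D * y (P \ D) - 3 * N, ?_, ?_⟩
    · rw [hsplit, sum_sub_distrib, hsT, hsG] at hsum
      linarith
    · exact par1 (hcT.trans hte) hN2 htx hcY

end Pool.Agent.Y287.ZN
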